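import Pool.Agent.helper77.SK.Spec2

/-! Row sk:LCE: local comparison of the Taylor coefficients, one more order. -/

set_option autoImplicit false

namespace Pool.Agent.SK

open Polynomial Finset

theorem LCE_alg {K : Type*} [Field K] (M d γ ε α P u1 u2 u3 u4 v1 v2 v3 v4 s0 s1 s2 s3 s4
    c0 c1 c2 c3 c4 σ0 σ1 σ2 σ3 σ4 : K) (hα : α ≠ 0) (hP : P ≠ 0) (hs : γ * s0 ≠ 0)
    (g0 : γ * s0 = ε * c0 * σ0) (g1 : γ * s1 = ε * c1 * σ1) (g2 : γ * s2 = ε * c2 * σ2)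
    (g3 : γ * s3 = ε * c3 * σ3) (g4 : γ * s4 = ε * c4 * σ4)
    (k1 : (M + 1) * c1 = (d - 1) * c0) (k2 : (M + 2) * c2 = (d - 2) * c1)
    (k3 : (M + 3) * c3 = (d - 3) * c2) (k4 : (M + 4) * c4 = (d - 4) * c3)
    (w1 : α * s1 = M * (α * u1) * s0)
    (w2 : 2 * α * s2 + (α * u1) * s1 = M * ((α * u1) * s1 + 2 * (α * u2) * s0))
    (w3 : 3 * α * s3 + 2 * (α * u1) * s2 + (α * u2) * s1
      = M * ((α * u1) * s2 + 2 * (α * u2) * s1 + 3 * (α * u3) * s0))
    (w4 : 4 * α * s4 + 3 * (α * u1) * s3 + 2 * (α * u2) * s2 + (α * u3) * s1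
      = M * ((α * u1) * s3 + 2 * (α * u2) * s2 + 3 * (α * u3) * s1 + 4 * (α * u4) * s0))
    (z1 : (P * v1) * σ0 - P * σ1 = 0)
    (z2 : (P * v2) * σ0 - (P * v1) * σ1 + P * σ2 = 0)
    (z3 : (P * v3) * σ0 - (P * v2) * σ1 + (P * v1) * σ2 - P * σ3 = 0)
    (z4 : (P * v4) * σ0 - (P * v3) * σ1 + (P * v2) * σ2 - (P * v1) * σ3 + P * σ4 = 0) :
    M * (M + 1) * u1 = (d - 1) * v1 ∧
    (M + 1) * (M + 2) * (2 * M * u2 + M * (M - 1) * u1 ^ 2) =
      2 * (d - 1) * (d - 2) * (v1 ^ 2 - v2) ∧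
    (M + 1) * (M + 2) * (M + 3) * (6 * M * u3 + 6 * M * (M - 1) * u1 * u2
      + M * (M - 1) * (M - 2) * u1 ^ 3) =
      6 * (d - 1) * (d - 2) * (d - 3) * (v1 ^ 3 - 2 * v1 * v2 + v3) ∧
    (M + 1) * (M + 2) * (M + 3) * (M + 4) * (24 * M * u4 + 24 * M * (M - 1) * u1 * u3
      + 12 * M * (M - 1) * u2 ^ 2 + 12 * M * (M - 1) * (M - 2) * u1 ^ 2 * u2
      + M * (M - 1) * (M - 2) * (M - 3) * u1 ^ 4) =
      24 * (d - 1) * (d - 2) * (d - 3) * (d - 4)
        * (v1 ^ 4 - 3 * v1 ^ 2 * v2 + v2 ^ 2 + 2 * v1 * v3 - v4) := by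
  have S1 : s1 = M * u1 * s0 := by
    apply mul_left_cancel₀ hα
    linear_combination w1
  have S2 : 2 * s2 = (2 * M * u2 + M * (M - 1) * u1 ^ 2) * s0 := by
    apply mul_left_cancel₀ hα
    linear_combination w2 + (M - 1) * α * u1 * S1
  have S3 : 6 * s3 = (6 * M * u3 + 6 * M * (M - 1) * u1 * u2
      + M * (M - 1) * (M - 2) * u1 ^ 3) * s0 := by
    apply mul_left_cancel₀ hα
    linear_combination 2 * w3 + (M - 2) * α * u1 * S2 + 2 * (2 * M - 1) * α * u2 * S1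
  have S4 : 24 * s4 = (24 * M * u4 + 24 * M * (M - 1) * u1 * u3
      + 12 * M * (M - 1) * u2 ^ 2 + 12 * M * (M - 1) * (M - 2) * u1 ^ 2 * u2
      + M * (M - 1) * (M - 2) * (M - 3) * u1 ^ 4) * s0 := by
    apply mul_left_cancel₀ hα
    linear_combination 6 * w4 + (M - 3) * α * u1 * S3 + 6 * (M - 1) * α * u2 * S2
      + 6 * (3 * M - 1) * α * u3 * S1
  have T1 : σ1 = v1 * σ0 := by
    apply mul_left_cancel₀ hP
    linear_combination -z1
  have T2 : σ2 = (v1 ^ 2 - v2) * σ0 := by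
    apply mul_left_cancel₀ hP
    linear_combination z2 + P * v1 * T1
  have T3 : σ3 = (v1 ^ 3 - 2 * v1 * v2 + v3) * σ0 := by
    apply mul_left_cancel₀ hP
    linear_combination -z3 - P * v2 * T1 + P * v1 * T2
  have T4 : σ4 = (v1 ^ 4 - 3 * v1 ^ 2 * v2 + v2 ^ 2 + 2 * v1 * v3 - v4) * σ0 := by
    apply mul_left_cancel₀ hP
    linear_combination z4 + P * v3 * T1 - P * v2 * T2 + P * v1 * T3
  refine ⟨?_, ?_, ?_, ?_⟩
  · apply mul_left_cancel₀ hs
    linear_combination -(M + 1) * γ * S1 + (M + 1) * g1 + ε * σ1 * k1 + ε * (d - 1) * c0 * T1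
      - (d - 1) * v1 * g0
  · apply mul_left_cancel₀ hs
    linear_combination -(M + 1) * (M + 2) * γ * S2 + 2 * (M + 1) * (M + 2) * g2
      + 2 * (M + 1) * ε * σ2 * k2 + 2 * ε * σ2 * (d - 2) * k1
      + 2 * ε * (d - 1) * (d - 2) * c0 * T2 - 2 * (d - 1) * (d - 2) * (v1 ^ 2 - v2) * g0
  · apply mul_left_cancel₀ hs
    linear_combination -(M + 1) * (M + 2) * (M + 3) * γ * S3
      + 6 * (M + 1) * (M + 2) * (M + 3) * g3 + 6 * (M + 1) * (M + 2) * ε * σ3 * k3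
      + 6 * (M + 1) * ε * σ3 * (d - 3) * k2 + 6 * ε * σ3 * (d - 2) * (d - 3) * k1
      + 6 * ε * (d - 1) * (d - 2) * (d - 3) * c0 * T3
      - 6 * (d - 1) * (d - 2) * (d - 3) * (v1 ^ 3 - 2 * v1 * v2 + v3) * g0
  · apply mul_left_cancel₀ hs
    linear_combination -(M + 1) * (M + 2) * (M + 3) * (M + 4) * γ * S4
      + 24 * (M + 1) * (M + 2) * (M + 3) * (M + 4) * g4
      + 24 * (M + 1) * (M + 2) * (M + 3) * ε * σ4 * k4
      + 24 * (M + 1) * (M + 2) * ε * σ4 * (d - 4) * k3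
      + 24 * (M + 1) * ε * σ4 * (d - 3) * (d - 4) * k2
      + 24 * ε * σ4 * (d - 2) * (d - 3) * (d - 4) * k1
      + 24 * ε * (d - 1) * (d - 2) * (d - 3) * (d - 4) * c0 * T4
      - 24 * (d - 1) * (d - 2) * (d - 3) * (d - 4)
        * (v1 ^ 4 - 3 * v1 ^ 2 * v2 + v2 ^ 2 + 2 * v1 * v3 - v4) * g0

theorem LCE_choose {K : Type*} [Field K] (d M i : ℕ) (hi : i < d) :
    ((M : K) + i + 1) * (((d + M - 1).choose (M + i + 1) : ℕ) : K)
      = ((d : K) - 1 - i) * (((d + M - 1).choose (M + i) : ℕ) : K) := by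
  have h := Nat.choose_succ_right_eq (d + M - 1) (M + i)
  have h2 : d + M - 1 - (M + i) = d - 1 - i := by omega
  rw [h2] at h
  have h3 : (((d - 1 - i : ℕ)) : K) = (d : K) - 1 - i := by
    rw [Nat.cast_sub (by omega), Nat.cast_sub (by omega), Nat.cast_one]
  have h4 := congrArg (Nat.cast (R := K)) h
  push_cast at h4
  rw [h3] at h4
  linear_combination h4

theorem LCE (hHP : HP_stmt) (hFV : FV_stmt) (hSG : SG_stmt) (hPW : PW_stmt)
    (hSGE : SGE_stmt) (hPWE : PWE_stmt) : LCE_stmt := by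
  intro p hp A B d ε hEx hd5 a ha
  obtain ⟨hCl, hA2, hB2, hAB, hdp⟩ := hEx
  have hBn : B.Nonempty := card_pos.mp (by omega)
  have hAn : A.Nonempty := ⟨a, ha⟩
  have hd4 : 4 ≤ d := by
    rw [← hAB]
    exact Nat.mul_le_mul hA2 hB2
  have hBd : B.card ≤ d := by
    rw [← hAB]
    exact Nat.le_mul_of_pos_left _ (by omega)
  obtain ⟨-, hγ, hFF⟩ := hHP p A B d ε hAn hBn (by omega) (by omega) hCl
  have hFF' := hFF hAB
  obtain ⟨-, hF⟩ := hFV p A B d ε hBn (by omega) hCl a ha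
  have hab : ∀ b ∈ B, a - b ≠ 0 := by
    intro b hb h0
    have h1 := hCl.2 a ha b hb
    rw [h0, zero_pow (by omega)] at h1
    exact hCl.1 h1.symm
  obtain ⟨hP0, hSG0, hSG1, hSG2, hSG3⟩ := hSG p B a hBn hab
  have hσ0 : sg B a 0 ≠ 0 := by
    intro h
    rw [h, mul_zero] at hSG0
    exact (pow_ne_zero _ (neg_ne_zero.mpr one_ne_zero)) hSG0.symm
  set f : (ZMod p)[X] := taylor a (pol A) with hf
  have hf0 : f.coeff 0 = 0 := by
    rw [hf, taylor_coeff_zero]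
    unfold pol
    rw [eval_prod]
    apply prod_eq_zero ha
    simp
  obtain ⟨w0, w1, w2, w3⟩ := hPW (ZMod p) f B.card hf0
  have w4 := hPWE (ZMod p) f B.card hf0
  have hSG4 := hSGE p B a hBn hab
  -- Taylor coefficients of `FF`
  have hG : ∀ i < d, (((d + B.card - 1).choose d : ℕ) : ZMod p) * (f ^ B.card).coeff (B.card + i)
      = ε * (((d + B.card - 1).choose (B.card + i) : ℕ) : ZMod p) * sg B a i := by
    intro i hi
    rw [← hF i hi]
    unfold tc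
    rw [hFF', taylor_mul, taylor_C, taylor_pow, coeff_C_mul]
  have g0 := hG 0 (by omega)
  have g1 := hG 1 (by omega)
  have g2 := hG 2 (by omega)
  have g3 := hG 3 (by omega)
  have g4 := hG 4 (by omega)
  rw [add_zero] at g0
  have hd0 : (d : ZMod p) ≠ 0 := by
    rw [Ne, ZMod.natCast_eq_zero_iff]
    intro h
    have := Nat.le_of_dvd (by omega) h
    omega
  have hc0 : (((d + B.card - 1).choose B.card : ℕ) : ZMod p) ≠ 0 := by
    have h1 : (d + B.card - 1).choose B.card * B.card = (d + B.card - 1).choose d * d := by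
      have e1 := Nat.choose_symm_of_eq_add (n := d + B.card - 1) (a := d - 1) (b := B.card)
        (by omega)
      have e2 := Nat.choose_symm_of_eq_add (n := d + B.card - 1) (a := d) (b := B.card - 1)
        (by omega)
      have e3 := Nat.choose_succ_right_eq (d + B.card - 1) (B.card - 1)
      have e4 : B.card - 1 + 1 = B.card := by omega
      have e5 : d + B.card - 1 - (B.card - 1) = d := by omega
      rw [e4, e5] at e3
      rw [e3, e2]
    intro h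
    have h2 := congrArg (Nat.cast (R := ZMod p)) h1
    push_cast at h2
    rw [h, zero_mul] at h2
    exact (mul_ne_zero hγ hd0) h2.symm
  have hs0 : (((d + B.card - 1).choose d : ℕ) : ZMod p) * (f ^ B.card).coeff B.card ≠ 0 := by
    rw [g0]
    exact mul_ne_zero (mul_ne_zero hCl.1 hc0) hσ0
  have hα : f.coeff 1 ≠ 0 := by
    intro h
    rw [w0, h, zero_pow (by omega), mul_zero] at hs0
    exact hs0 rfl
  have hNM : (A.card : ZMod p) * B.card = d := by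
    rw [← hAB]; push_cast; ring
  have k1 := LCE_choose (K := ZMod p) d B.card 0 (by omega)
  have k2 := LCE_choose (K := ZMod p) d B.card 1 (by omega)
  have k3 := LCE_choose (K := ZMod p) d B.card 2 (by omega)
  have k4 := LCE_choose (K := ZMod p) d B.card 3 (by omega)
  set α := f.coeff 1 with hαd
  set P := tc (pol B) a 0 with hPd
  obtain ⟨u1, eu1⟩ : ∃ u, f.coeff 2 = α * u := ⟨f.coeff 2 / α, by field_simp⟩
  obtain ⟨u2, eu2⟩ : ∃ u, f.coeff 3 = α * u := ⟨f.coeff 3 / α, by field_simp⟩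
  obtain ⟨u3, eu3⟩ : ∃ u, f.coeff 4 = α * u := ⟨f.coeff 4 / α, by field_simp⟩
  obtain ⟨u4, eu4⟩ : ∃ u, f.coeff 5 = α * u := ⟨f.coeff 5 / α, by field_simp⟩
  obtain ⟨v1, ev1⟩ : ∃ u, tc (pol B) a 1 = P * u := ⟨tc (pol B) a 1 / P, by field_simp⟩
  obtain ⟨v2, ev2⟩ : ∃ u, tc (pol B) a 2 = P * u := ⟨tc (pol B) a 2 / P, by field_simp⟩
  obtain ⟨v3, ev3⟩ : ∃ u, tc (pol B) a 3 = P * u := ⟨tc (pol B) a 3 / P, by field_simp⟩
  obtain ⟨v4, ev4⟩ : ∃ u, tc (pol B) a 4 = P * u := ⟨tc (pol B) a 4 / P, by field_simp⟩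
  refine ⟨α, P, u1, u2, u3, u4, v1, v2, v3, v4, hα, hP0, hf0, rfl, eu1, eu2, eu3, eu4, rfl,
    ev1, ev2, ev3, ev4, ?_⟩
  rw [eu1] at w1
  rw [eu1, eu2] at w2
  rw [eu1, eu2, eu3] at w3
  rw [eu1, eu2, eu3, eu4] at w4
  rw [ev1] at hSG1
  rw [ev1, ev2] at hSG2
  rw [ev1, ev2, ev3] at hSG3
  rw [ev1, ev2, ev3, ev4] at hSG4
  have key := LCE_alg (B.card : ZMod p) (d : ZMod p) _ ε α P u1 u2 u3 u4 v1 v2 v3 v4
    _ _ _ _ _ _ _ _ _ _ _ _ _ _ _ hα hP0 hs0 g0 g1 g2 g3 g4 (by linear_combination k1)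
    (by linear_combination k2) (by linear_combination k3) (by linear_combination k4)
    w1 w2 w3 w4 hSG1 hSG2 hSG3 hSG4
  unfold R1 R2 R3 R4
  rw [hNM]
  exact key

end Pool.Agent.SK
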